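import Pool.Agent.Q167.Words.Complexity

/-!
# MP_d47c21_co, Q1: the number of binary subword complexity sequences

`a_2(n) ≤ (n + 1) ^ (√n (12 log₂ n + 1))`, so `a_2(n) / 2 ^ (n / 2)` tends to `0` and not to `1`.
-/

set_option autoImplicit false

namespace Pool.Agent.Results.MP_d47c21_co.BinaryCount

open Filter Q167.Words

theorem result :
    Tendsto (fun n : ℕ => (numSeq 2 n : ℝ) / (2 : ℝ) ^ ((n : ℝ) / 2)) atTop (nhds 0) ∧
    ¬ Tendsto (fun n : ℕ => (numSeq 2 n : ℝ) / (2 : ℝ) ^ ((n : ℝ) / 2)) atTop (nhds 1) ∧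
    ∀ n : ℕ, numSeq 2 n ≤ (n + 1) ^ (Nat.sqrt n * (12 * Nat.log 2 n + 1)) := by
  have h := tendsto_ratio 2 one_pos
  simp only [one_mul] at h
  exact ⟨h, fun h1 => zero_ne_one (tendsto_nhds_unique h h1), numSeq_le 2⟩

end Pool.Agent.Results.MP_d47c21_co.BinaryCount
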